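import Mathlib
import Pool.Agent.X126.TsftB

set_option autoImplicit false

open Filter Topology

namespace Pool.Agent.Results.MP_29bdbb_an.EveryMatrixEntropy

/-- Nodes of the tree in which every node has `d` children: finite words over `d` letters. -/
abbrev Node (d : ℕ) : Type := List (Fin d)

/-- `n`-blocks: labellings of the nodes `w` with `|w| ≤ n - 1`. -/
abbrev Block (d : ℕ) (B : Type) (n : ℕ) : Type := {w : Node d // w.length < n} → B

/-- The `n`-block of the labelled tree `t` at the node `v`. -/
def blockAt {d : ℕ} {B : Type} (t : Node d → B) (v : Node d) (n : ℕ) : Block d B n :=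
  fun w => t (v ++ w.1)

/-- The tree-shift `X_F`: the labelled trees in which no block of `F` occurs at any node. -/
def shiftOf {d : ℕ} {B : Type} (F : Set (Σ n : ℕ, Block d B n)) : Set (Node d → B) :=
  {t | ∀ p ∈ F, ∀ v, blockAt t v p.1 ≠ p.2}

/-- The set `B_n(X)` of `n`-blocks occurring in elements of `X`. -/
def blocks {d : ℕ} {B : Type} (X : Set (Node d → B)) (n : ℕ) : Set (Block d B n) :=
  {b | ∃ t ∈ X, ∃ v, blockAt t v n = b}

/-- The entropy of the tree-shift `X` exists and equals `h`. -/
def HasEntropy {d : ℕ} {B : Type} (X : Set (Node d → B)) (h : ℝ) : Prop :=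
  Tendsto (fun n : ℕ => Real.log (Real.log ((blocks X n).ncard : ℝ)) / n) atTop (𝓝 h)

/-- Positive answer to Q1: for every square `0`-`1` matrix `A` whose matrix shift `X_A` is nonempty there is a
nonempty tree-shift of finite type whose entropy exists and equals `log ρ(A)`, where `ρ(A)` is the spectral
radius of `A`, i.e. the topological entropy of `X_A`. -/
theorem result (S : Type) [Fintype S] [DecidableEq S] (A : Matrix S S ℕ)
    (hA : ∀ i j, A i j = 0 ∨ A i j = 1) (hne : ∃ x : ℤ → S, ∀ i, A (x i) (x (i + 1)) = 1) :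
    ∃ (d : ℕ) (B : Type) (_ : Finite B) (F : Set (Σ n : ℕ, Block d B n)),
      2 ≤ d ∧ F.Finite ∧ (∀ p ∈ F, 1 ≤ p.1) ∧ (shiftOf F).Nonempty ∧
      HasEntropy (shiftOf F)
        (Real.log (spectralRadius ℂ (A.map (fun n : ℕ => (n : ℂ)))).toReal) := by
  obtain ⟨x, hx⟩ := hne
  have hS : Nonempty S := ⟨x 0⟩
  refine ⟨Fintype.card S + 2, Pool.Agent.X126.Tsft.Alph S, inferInstance,
    Pool.Agent.X126.Tsft.Forb A, by omega, Pool.Agent.X126.Tsft.forb_finite A, ?_, ?_, ?_⟩
  · rintro p ⟨b, -, rfl⟩
    norm_num
  · refine ⟨fun _ => none, ?_⟩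
    have h := (Pool.Agent.X126.Tsft.mem_shiftOf A (fun _ => none)).2 (fun v j => rfl)
    exact h
  · set u : ℕ → ℕ := Pool.Agent.X126.Tsft.U A with hu
    set v : ℕ → ℕ := Pool.Agent.X126.Tsft.m A with hv
    have hu1 : ∀ k, 1 ≤ u k := Pool.Agent.X126.Tsft.U_pos A x hx
    obtain ⟨hg1, hg2⟩ := Pool.Agent.X126.Tsft.gelfand A hu1
    have hgr := Pool.Agent.X126.Tsft.growth u v _ hg2 hu1 hg1
      (Pool.Agent.X126.Tsft.U_le_m A hA) (Pool.Agent.X126.Tsft.m_le A hA)
    set l : ℝ := Real.log (spectralRadius ℂ (Pool.Agent.X126.Tsft.Ac A)).toReal with hl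
    show Tendsto (fun n : ℕ => Real.log (Real.log
      ((blocks (shiftOf (Pool.Agent.X126.Tsft.Forb A)) n).ncard : ℝ)) / n) atTop (𝓝 l)
    set N : ℕ → ℕ := fun n => (blocks (shiftOf (Pool.Agent.X126.Tsft.Forb A)) n).ncard with hN
    have hlow : ∀ n, 2 ^ v n ≤ N n := fun n => Pool.Agent.X126.Tsft.card_low' A n
    have hup : ∀ n, N n ≤ (Fintype.card S + 1) * 2 ^ v n :=
      fun n => Pool.Agent.X126.Tsft.card_up A n
    set a : ℝ := Real.log 2 with ha
    have ha0 : 0 < a := Real.log_pos (by norm_num)
    set b : ℝ := Real.log (Fintype.card S + 1) with hb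
    have hb0 : 0 ≤ b := Real.log_nonneg (by
      have : (0:ℝ) ≤ Fintype.card S := Nat.cast_nonneg _
      linarith)
    have hvpos : ∀ n, 1 ≤ n → (1 : ℝ) ≤ v n := by
      intro n hn
      have h3 := Pool.Agent.X126.Tsft.U_le_m A hA (n - 1)
      rw [Nat.sub_add_cancel hn] at h3
      exact_mod_cast (hu1 _).trans h3
    have hinv : Tendsto (fun n : ℕ => (1 : ℝ) / n) atTop (𝓝 0) :=
      tendsto_one_div_atTop_nhds_zero_nat
    have hL : Tendsto (fun n : ℕ => Real.log (v n) / n + Real.log a * (1 / n)) atTop (𝓝 l) := by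
      have := hgr.add (hinv.const_mul (Real.log a))
      simpa using this
    have hU : Tendsto (fun n : ℕ => Real.log (v n) / n + Real.log (a + b) * (1 / n)) atTop
        (𝓝 l) := by
      have := hgr.add (hinv.const_mul (Real.log (a + b)))
      simpa using this
    refine tendsto_of_tendsto_of_tendsto_of_le_of_le' hL hU ?_ ?_
    · filter_upwards [eventually_ge_atTop 1] with n hn
      have h1 := hvpos n hn
      have hn0 : (0 : ℝ) < n := by exact_mod_cast hn
      have h2 : (2 : ℝ) ^ v n ≤ N n := by exact_mod_cast hlow n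
      have h3 : (v n : ℝ) * a ≤ Real.log (N n) := by
        have := Real.log_le_log (by positivity) h2
        rwa [Real.log_pow] at this
      have h4 : Real.log (v n) + Real.log a ≤ Real.log (Real.log (N n)) := by
        rw [← Real.log_mul (by linarith) ha0.ne']
        exact Real.log_le_log (by positivity) h3
      have h5 : Real.log (v n) / n + Real.log a * (1 / n) = (Real.log (v n) + Real.log a) / n := by
        ring
      rw [h5]
      exact div_le_div_of_nonneg_right h4 hn0.le
    · filter_upwards [eventually_ge_atTop 1] with n hn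
      have h1 := hvpos n hn
      have hn0 : (0 : ℝ) < n := by exact_mod_cast hn
      have hNpos : (1 : ℝ) < N n := by
        have h2 : (2 : ℝ) ^ v n ≤ N n := by exact_mod_cast hlow n
        have h3 : (1 : ℝ) < 2 ^ v n := by
          refine one_lt_pow₀ (by norm_num) ?_
          have : 1 ≤ v n := by exact_mod_cast h1
          omega
        linarith
      have h2 : (N n : ℝ) ≤ (Fintype.card S + 1) * 2 ^ v n := by exact_mod_cast hup n
      have h3 : Real.log (N n) ≤ v n * (a + b) := by
        have h4 := Real.log_le_log (by linarith) h2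
        rw [Real.log_mul (by positivity) (by positivity), Real.log_pow] at h4
        nlinarith
      have h4 : Real.log (Real.log (N n)) ≤ Real.log (v n) + Real.log (a + b) := by
        rw [← Real.log_mul (by linarith) (by linarith)]
        exact Real.log_le_log (Real.log_pos hNpos) h3
      have h5 : Real.log (v n) / n + Real.log (a + b) * (1 / n) =
          (Real.log (v n) + Real.log (a + b)) / n := by
        ring
      rw [h5]
      exact div_le_div_of_nonneg_right h4 hn0.le

end Pool.Agent.Results.MP_29bdbb_an.EveryMatrixEntropy
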